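import Mathlib
import Pool.Agent.H17.SignRec

set_option autoImplicit false

namespace Pool.Agent.Results.MP_c55a01_nt.NotAutomatic

theorem result : ∃ a : ℕ → ℤ, (Set.range a).Finite ∧
    {v : ℕ → ℤ | ∃ e j, j < 2 ^ e ∧ v = fun n => a (2 ^ e * n + j)}.Finite ∧
    ∀ r : ℕ → ℤ, r 0 = 0 → r 1 = 1 → (∀ n, r (n + 2) = a (n + 2) * r (n + 1) + r n) →
      ∀ k : ℕ, 2 ≤ k →
        ¬ {v : ℕ → ℤ | ∃ e j, j < k ^ e ∧ v = fun n => Int.sign (r (k ^ e * n + j))}.Finite :=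
  ⟨_, Pool.Agent.H17.SignRec.fin_range, Pool.Agent.H17.SignRec.auto,
    Pool.Agent.H17.SignRec.not_auto⟩

end Pool.Agent.Results.MP_c55a01_nt.NotAutomatic
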